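import Pool.Agent.Helper24.FV.Input
import Pool.Agent.Helper24.MX.Facet
import Pool.Agent.Helper24.UB.AsLast
import Pool.Agent.Helper24.UB.WtLast
import Pool.Agent.Helper20.PS.Bud

/-!
# Five facets: one of the two circuits is nearly full
-/

set_option autoImplicit false

namespace Pool.Agent.Helper24.FIVE

open Matrix
open Pool.Agent.Helper20.FIVE
open Pool.Agent.Helper12.LW (LFree toR)
open Pool.Agent.Helper84.FL (WidthLe)
open Pool.Agent.Helper20.PS (Two vD bD gD hD)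

/-- the polytope of the two circuits -/
def Ex (g : Fin 4 → Fin 3 → ℝ) (b : Fin 4 → ℝ) (mu : Fin 3 → ℝ) : Set (Fin 3 → ℝ) :=
  {x | (∀ j, g j ⬝ᵥ x ≤ b j) ∧ vD g mu ⬝ᵥ x ≤ bD b mu}

/-- **Five facets, two circuits**, with the body equal to the polytope. -/
theorem exists_exact (n : Fin 5 → Fin 3 → ℝ) (b : Fin 5 → ℝ) (hcomp : IsCompact (Half n b))
    (hint : (interior (Half n b)).Nonempty) (hfree : ∀ z : Fin 3 → ℤ, toR z ∉ interior (Half n b))
    (W : ℝ) (hW0 : 0 < W) (hW : ¬ WidthLe (Half n b) W) :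
    ∃ (g : Fin 4 → Fin 3 → ℝ) (b' : Fin 4 → ℝ) (μ : Fin 3 → ℝ), Two (Ex g b' μ) W g b' μ := by
  classical
  obtain ⟨p, hp⟩ := hint
  have hpK := interior_subset hp
  obtain ⟨β, hβ⟩ : ∃ β : Fin 5 → ℝ, β = fun i => if n i = 0 then 1 else b i - n i ⬝ᵥ p := ⟨_, rfl⟩
  have hβ0 : ∀ i, 0 < β i := by
    intro i
    rw [hβ]
    simp only
    split_ifs with hi
    · exact one_pos
    · linarith [lt_of_interior hp i hi]
  have heq : Pol n p β = Half n b := by
    ext x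
    have h1 : ∀ i, (n i ⬝ᵥ (x - p) ≤ β i ↔ n i ⬝ᵥ x ≤ b i) := by
      intro i
      rw [hβ]
      simp only
      split_ifs with hi
      · rw [hi, zero_dotProduct, zero_dotProduct]
        have h2 := hpK i
        rw [hi, zero_dotProduct] at h2
        exact ⟨fun _ => h2, fun _ => zero_le_one⟩
      · rw [dotProduct_sub]
        constructor <;> intro h <;> linarith
    exact forall_congr' h1
  obtain ⟨η, β', hη, hβ', hsh⟩ := shrink n p β hβ0 (by rw [heq]; exact hcomp) W hW0 (by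
    intro r hr
    rw [heq]
    exact wide_of_not hW r hr)
  obtain ⟨n', hn', hgen⟩ := Pool.Agent.Helper21.FIVE.exists_generic n η hη
  obtain ⟨h1, h2, h3⟩ := hsh n' hn'
  rw [heq] at h1
  have hpi : p ∈ interior (Pol n' p β') := Pol_interior n' p β' fun i => by
    rw [sub_self, dotProduct_zero]
    exact hβ' i
  have hLF : LFree (Pol n' p β') := ⟨h2, Pol_convex _ _ _, ⟨p, hpi⟩, fun z hz =>
    hfree z (h1 (interior_subset hz))⟩
  obtain ⟨g, b0, μ, hg, hb, hspan, hμ, hK⟩ := Pool.Agent.Helper24.FV.exists_two hgen hβ' h2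
  have hKe : Pol n' p β' = Ex g b0 μ := by
    ext x
    exact hK x
  rw [hKe] at hLF h3
  refine ⟨g, b0, μ, hLF, h3, hg, hb, hspan, hμ, fun j x hx => hx.1 j, fun x hx => hx.2, ?_⟩
  intro z
  by_contra hcon
  push Not at hcon
  exact hfree z (h1 ((hK (toR z)).2 ⟨fun j => (hcon.1 j).le, hcon.2.le⟩))

/-- the five normals -/
def N5 (g : Fin 4 → Fin 3 → ℝ) (mu : Fin 3 → ℝ) : Option (Fin 4) → Fin 3 → ℝ
  | none => vD g mu
  | some j => g j

/-- the five heights -/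
def H5 (b : Fin 4 → ℝ) (mu : Fin 3 → ℝ) : Option (Fin 4) → ℝ
  | none => bD b mu
  | some j => b j

/-- a relation of four spanning vectors with sum zero is a multiple of the sum -/
theorem rel4 {g : Fin 4 → Fin 3 → ℝ} (hs : ∑ j, g j = 0)
    (span : ∀ m : Fin 3 → ℝ, ∃ a : Fin 4 → ℝ, ∑ j, a j • g j = m) (c : Fin 4 → ℝ) (hc : ∑ j, c j • g j = 0) :
    ∀ j, c j = c 0 := by
  classical
  -- the three vectors `g 1, g 2, g 3` span, hence they are independent
  have h3 : ∀ m : Fin 3 → ℝ, ∃ a : Fin 3 → ℝ, ∑ i, a i • g i.succ = m := by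
    intro m
    obtain ⟨a, ha⟩ := span m
    refine ⟨fun i => a i.succ - a 0, ?_⟩
    rw [Fin.sum_univ_succ] at hs ha
    have h1 : g 0 = -∑ i : Fin 3, g i.succ := eq_neg_of_add_eq_zero_left hs
    rw [← ha, h1]
    simp only [sub_smul, Finset.sum_sub_distrib, smul_neg, Finset.smul_sum]
    abel
  obtain ⟨A, hA⟩ : ∃ A : Matrix (Fin 3) (Fin 3) ℝ, A = Matrix.of fun i j => g i.succ j := ⟨_, rfl⟩
  have hsurj : Function.Surjective (fun a : Fin 3 → ℝ => a ᵥ* A) := by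
    intro m
    obtain ⟨a, ha⟩ := h3 m
    refine ⟨a, ?_⟩
    rw [← ha]
    funext j
    simp only [vecMul, dotProduct, hA, Matrix.of_apply, Finset.sum_apply, Pi.smul_apply, smul_eq_mul]
  have hinj : Function.Injective (fun a : Fin 3 → ℝ => a ᵥ* A) := by
    have := (LinearMap.injective_iff_surjective (f := A.vecMulLinear)).2 hsurj
    exact this
  have h4 : (fun i : Fin 3 => c i.succ - c 0) ᵥ* A = (0 : Fin 3 → ℝ) ᵥ* A := by
    rw [zero_vecMul]
    have h5 : ∑ i : Fin 3, (c i.succ - c 0) • g i.succ = 0 := by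
      rw [Fin.sum_univ_succ] at hs hc
      have h1 : g 0 = -∑ i : Fin 3, g i.succ := eq_neg_of_add_eq_zero_left hs
      rw [← hc, h1]
      simp only [sub_smul, Finset.sum_sub_distrib, smul_neg, Finset.smul_sum]
      abel
    rw [← h5]
    funext j
    simp only [vecMul, dotProduct, hA, Matrix.of_apply, Finset.sum_apply, Pi.smul_apply, smul_eq_mul]
  have h6 := hinj h4
  intro j
  refine Fin.cases rfl (fun i => ?_) j
  have h7 := congrFun h6 i
  simp only [Pi.zero_apply] at h7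
  linarith

/-- **One of the two circuits has asymmetry at least `2.66`** -/
theorem asym {g : Fin 4 → Fin 3 → ℝ} {b : Fin 4 → ℝ} {mu : Fin 3 → ℝ}
    (h : Two (Ex g b mu) (2 + Real.sqrt 2) g b mu) :
    (∃ p : Fin 4 → Fin 3 → ℝ, (∀ k, p k ∈ Ex g b mu) ∧ 183 / 50 ≤ ∑ k, (b k - g k ⬝ᵥ p k)) ∨
      ∃ p : Fin 4 → Fin 3 → ℝ, (∀ k, p k ∈ Ex g b mu) ∧ 183 / 50 ≤ ∑ k, (hD b mu k - gD g mu k ⬝ᵥ p k) := by
  classical
  have hcomp : IsCompact (Ex g b mu) := h.free.compact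
  obtain ⟨x0, hx0⟩ := h.free.interior_nonempty
  have hx0M : x0 ∈ Ex g b mu := interior_subset hx0
  -- minima
  have hmin : ∀ v : Fin 3 → ℝ, ∃ p ∈ Ex g b mu, ∀ x ∈ Ex g b mu, v ⬝ᵥ p ≤ v ⬝ᵥ x := by
    intro v
    have hcont : ContinuousOn (fun x : Fin 3 → ℝ => v ⬝ᵥ x) (Ex g b mu) := by
      apply Continuous.continuousOn
      unfold dotProduct
      fun_prop
    obtain ⟨p, hp, hp'⟩ := hcomp.exists_isMinOn ⟨x0, hx0M⟩ hcont
    exact ⟨p, hp, fun x hx => hp' hx⟩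
  choose P hP hPm using hmin
  have hmemE : ∀ x, x ∈ Ex g b mu ↔ ∀ j, N5 g mu j ⬝ᵥ x ≤ H5 b mu j := by
    intro x
    constructor
    · rintro ⟨h1, h2⟩ (_ | j)
      · exact h2
      · exact h1 j
    · intro h1
      exact ⟨fun j => h1 (some j), h1 none⟩
  have hno : ∀ c : Fin 3 → ℝ, ∃ x ∈ Ex g b mu, c - (1 / (133 / 50 : ℝ)) • (x - c) ∉ Ex g b mu := by
    intro c
    by_contra hcon
    push Not at hcon
    obtain ⟨y, hy0, hy⟩ := Pool.Agent.Helper24.UB.asym266 (Ex g b mu) h.free.compact h.free.convex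
      h.free.interior_nonempty h.free.free c (133 / 50) (by norm_num) (by norm_num) hcon
    obtain ⟨x, hx, x', hx', hlt⟩ := h.wide y hy0
    have h2 := hy x hx x' hx'
    have h3 : toR y ⬝ᵥ (x - x') = ∑ i, (x i - x' i) * (y i : ℝ) := by
      simp only [dotProduct, toR, Pi.sub_apply]
      exact Finset.sum_congr rfl fun i _ => mul_comm _ _
    rw [h3] at hlt
    exact absurd h2 (not_le.2 hlt)
  obtain ⟨β, hβ⟩ : ∃ β : Option (Fin 4) → ℝ, β = fun j =>
      (133 / 50 * H5 b mu j + N5 g mu j ⬝ᵥ P (N5 g mu j)) / (183 / 50) := ⟨_, rfl⟩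
  obtain ⟨lam, hl0, ⟨j0, hj0⟩, hrel, hle⟩ := Pool.Agent.Helper24.MX.farkas (N5 g mu) β (by
    intro c
    obtain ⟨x, hx, hxn⟩ := hno c
    rw [hmemE] at hxn
    push Not at hxn
    obtain ⟨j, hj⟩ := hxn
    refine ⟨j, ?_⟩
    have h1 := hPm (N5 g mu j) x hx
    rw [dotProduct_sub, dotProduct_smul, dotProduct_sub, smul_eq_mul] at hj
    rw [hβ]
    simp only
    rw [div_le_iff₀ (by norm_num)]
    linarith)
  rw [Fintype.sum_option] at hrel
  have e1 : ∑ j, β j * (183 / 50) * lam j ≤ 0 := by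
    have e2 : ∑ j, β j * (183 / 50) * lam j = (183 / 50) * ∑ j, lam j * β j := by
      rw [Finset.mul_sum]
      exact Finset.sum_congr rfl fun j _ => by ring
    rw [e2]
    linarith
  rw [Fintype.sum_option] at e1
  simp only [hβ, N5, H5] at e1 hrel
  simp only [div_mul_cancel₀ _ (show (183 / 50 : ℝ) ≠ 0 by norm_num)] at e1
  -- the relation is a combination of the two circuits
  have hr2 := rel4 h.sum_g h.span (fun j => lam (some j) - lam none * (Fin.cons 0 mu : Fin 4 → ℝ) j) (by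
    rw [← hrel]
    simp only [sub_smul, Finset.sum_sub_distrib]
    rw [sub_eq_add_neg, add_comm]
    congr 1
    rw [vD, smul_neg, Fin.sum_univ_succ]
    simp only [Fin.cons_zero, Fin.cons_succ, mul_zero, zero_smul, zero_add, Finset.smul_sum, smul_smul])
  have hr : ∀ i : Fin 3, lam (some i.succ) = lam (some 0) + lam none * mu i := by
    intro i
    have h1 := hr2 i.succ
    simp only [Fin.cons_succ, Fin.cons_zero, mul_zero, sub_zero] at h1
    linarith
  by_contra hcon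
  push Not at hcon
  obtain ⟨hc1, hc2⟩ := hcon
  have hb1 := hc1 (fun k => P (g k)) fun k => hP _
  have hb2 := hc2 (Fin.cons (P (vD g mu)) fun i : Fin 3 => P (g i.succ)) (by
    intro k
    refine Fin.cases (hP _) (fun i => hP _) k)
  rw [Fin.sum_univ_succ] at hb1 hb2
  rw [Fin.sum_univ_succ] at e1
  simp only [hD, gD, Fin.cons_zero, Fin.cons_succ, smul_dotProduct, smul_eq_mul] at hb2
  simp only [hr] at e1
  have hs := h.sum_b
  rw [Fin.sum_univ_succ] at hs
  have hbd : bD b mu = 1 - ∑ i, mu i * b i.succ := rfl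
  simp only [Fin.sum_univ_three] at hb1 hb2 e1 hs hbd
  have hA0 := hl0 (some 0)
  have hB0 := hl0 none
  obtain ⟨a, ha⟩ : ∃ a, a = lam (some 0) := ⟨_, rfl⟩
  obtain ⟨d, hd⟩ : ∃ d, d = lam none := ⟨_, rfl⟩
  rw [← ha] at hA0 e1
  rw [← hd] at hB0 e1
  have hpos : 0 < a ∨ 0 < d := by
    by_contra hc
    push Not at hc
    have ha0 : a = 0 := le_antisymm hc.1 hA0
    have hd0 : d = 0 := le_antisymm hc.2 hB0
    refine absurd hj0 (not_lt.2 (le_of_eq ?_))
    rcases j0 with _ | j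
    · rw [← hd, hd0]
    · refine Fin.cases ?_ (fun i => ?_) j
      · rw [← ha, ha0]
      · rw [hr i, ← ha, ← hd, ha0, hd0]
        ring
  obtain ⟨S1, hS1⟩ : ∃ S1, S1 = b 0 - g 0 ⬝ᵥ P (g 0) +
      ((b (Fin.succ 0) - g (Fin.succ 0) ⬝ᵥ P (g (Fin.succ 0))) +
        (b (Fin.succ 1) - g (Fin.succ 1) ⬝ᵥ P (g (Fin.succ 1))) +
        (b (Fin.succ 2) - g (Fin.succ 2) ⬝ᵥ P (g (Fin.succ 2)))) := ⟨_, rfl⟩
  obtain ⟨S2, hS2⟩ : ∃ S2, S2 = bD b mu - vD g mu ⬝ᵥ P (vD g mu) +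
      ((mu 0 * b (Fin.succ 0) - mu 0 * g (Fin.succ 0) ⬝ᵥ P (g (Fin.succ 0))) +
        (mu 1 * b (Fin.succ 1) - mu 1 * g (Fin.succ 1) ⬝ᵥ P (g (Fin.succ 1))) +
        (mu 2 * b (Fin.succ 2) - mu 2 * g (Fin.succ 2) ⬝ᵥ P (g (Fin.succ 2)))) := ⟨_, rfl⟩
  rw [← hS1] at hb1
  rw [← hS2] at hb2
  have key : a * (183 / 50 - S1) + d * (183 / 50 - S2) ≤ 0 := by
    refine le_of_eq_of_le ?_ e1
    rw [hS1, hS2]
    linear_combination -(183 / 50) * a * hs - 183 / 50 * d * hbd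
  have k1 : 0 < 183 / 50 - S1 := sub_pos.2 hb1
  have k2 : 0 < 183 / 50 - S2 := sub_pos.2 hb2
  have m1 := mul_nonneg hA0 k1.le
  have m2 := mul_nonneg hB0 k2.le
  rcases hpos with h1 | h1
  · have := mul_pos h1 k1
    linarith
  · have := mul_pos h1 k2
    linarith

end Pool.Agent.Helper24.FIVE
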