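import Pool.Agent.Helper20.PS.KMain

/-!
# The state of the certificate with the rational width
-/

set_option autoImplicit false

namespace Pool.Agent.Helper24.FIVE

open Matrix
open Pool.Agent.Helper80.TK (KS KR)
open Pool.Agent.Helper20.PS (KF)
open Pool.Agent.Helper1.FIVE (oc)

theorem ks_mono {W W' : ℝ} {F G : Matrix (Fin 3) (Fin 3) ℝ} {cls : Fin 3 → Bool} {d c s : Fin 3 → ℝ} {h : ℝ}
    {lab : (Fin 3 → ℤ) → Fin 5} (hW : W' ≤ W) (hk : KS W F G cls d c s h lab) : KS W' F G cls d c s h lab :=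
  { hk with
    wd := fun u hu => by
      obtain ⟨p, q, hp, hq, h1⟩ := hk.wd u hu
      exact ⟨p, q, hp, hq, by linarith⟩ }

theorem kr_mono {W W' : ℝ} {F G : Matrix (Fin 3) (Fin 3) ℝ} {cls : Fin 3 → Bool} {d c s : Fin 3 → ℝ} {h : ℝ}
    {lab : (Fin 3 → ℤ) → Fin 5} (hW : W' ≤ W) (hk : KR W F G cls d c s h lab) : KR W' F G cls d c s h lab :=
  { hk with ks := ks_mono hW hk.ks }

theorem rat_le : (577 / 169 : ℝ) ≤ 2 + Real.sqrt 2 := by
  have h1 : (577 / 169 - 2 : ℝ) ≤ Real.sqrt 2 := Real.le_sqrt_of_sq_le (by norm_num)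
  linarith

/-- the state `KF` at the width `2 + √2` gives the state of the machine at `577 / 169` -/
theorem kf_kr {l : Fin 6 → Fin 5} {F Z : Matrix (Fin 3) (Fin 3) ℝ} {S : ℝ} {p : Fin 5 → ℝ}
    {cls : Fin 3 → Bool} {d c s : Fin 3 → ℝ} {h : ℝ} {L : (Fin 3 → ℤ) → Fin 5}
    (hk : KF (2 + Real.sqrt 2) l F Z S p cls d c s h L) :
    KR (577 / 169) F (F * Z) cls d c s h L ∧ ∀ i, L (oc i) = l i :=
  ⟨kr_mono rat_le hk.kr, hk.oct⟩

end Pool.Agent.Helper24.FIVE
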