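import Pool.Agent.Helper24.FIVE.Of
import Pool.Agent.Helper20.PS.State
import Pool.Agent.Helper1.FIVE.OClass
import Pool.Agent.Helper38.TET.Final
import Pool.Agent.Helper44.ThA.Top

/-!
# The theorem on polytopes with at most five facets, from the certificate of the wall states

The only hypothesis is that none of the seven classes of wall states exists, for the form with parameter `κ`.
-/

set_option autoImplicit false

namespace Pool.Agent.Helper24.FIVE

open Matrix
open Pool.Agent.Helper1.FIVE (OState HasState classesM)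

/-- **Polytopes with at most five facets**, from the certificate of the wall states -/
theorem five_cert {κ : ℝ} (h0 : 0 ≤ κ) (h1 : κ ≤ 1)
    (cert : ∀ (K : Set (Fin 3 → ℝ)) (l : Fin 6 → Fin 5), l ∈ classesM → ¬ HasState κ K (2 + Real.sqrt 2) l)
    (w : Fin 5 → Fin 3 → ℝ) (b : Fin 5 → ℝ)
    (hb : Bornology.IsBounded {x : Fin 3 → ℝ | ∀ i, ∑ j, w i j * x j ≤ b i})
    (hi : (interior {x : Fin 3 → ℝ | ∀ i, ∑ j, w i j * x j ≤ b i}).Nonempty)
    (hz : ∀ z : Fin 3 → ℤ, (fun j => (z j : ℝ)) ∉ interior {x : Fin 3 → ℝ | ∀ i, ∑ j, w i j * x j ≤ b i}) :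
    ∃ y : Fin 3 → ℤ, y ≠ 0 ∧ ∀ x ∈ {x : Fin 3 → ℝ | ∀ i, ∑ j, w i j * x j ≤ b i},
      ∀ x' ∈ {x : Fin 3 → ℝ | ∀ i, ∑ j, w i j * x j ≤ b i},
        ∑ i, (x i - x' i) * (y i : ℝ) ≤ 2 + Real.sqrt 2 := by
  refine five_of (fun K g b mu h => ?_) w b hb hi hz
  obtain ⟨n, nC, nD, b', bC, bD', ρ, lab, f, x, hS⟩ := Pool.Agent.Helper20.PS.exists_ostate
    (fun K f P g hK hch hspan =>
      Pool.Agent.Helper38.TET.flatA_of Pool.Agent.Helper44.ThA.core hK hch hspan) h0 h1 h
  obtain ⟨l, hl, hH⟩ := OState.exists_class hS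
  exact cert _ l hl hH

end Pool.Agent.Helper24.FIVE
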