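import Pool.Agent.Helper24.FIVE.Asym
import Pool.Agent.Helper20.PS.Bud
import Pool.Agent.Helper38.TET.Final
import Pool.Agent.Helper44.ThA.Top

/-!
# The theorem on polytopes with at most five facets, from the certificate of the wall states with the budget

The only hypothesis is that no wall state with the budget of asymmetry exists, for the form with parameter `κ`.
-/

set_option autoImplicit false

namespace Pool.Agent.Helper24.FIVE

open Matrix
open Pool.Agent.Helper20.FIVE (Half)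
open Pool.Agent.Helper20.PS (Two Bud BState exists_bud exists_bstate)

/-- **Polytopes with at most five facets**, from the exclusion of two circuits with the budget -/
theorem five_bof
    (H : ∀ (K : Set (Fin 3 → ℝ)) (g : Fin 4 → Fin 3 → ℝ) (b : Fin 4 → ℝ) (mu : Fin 3 → ℝ),
      Two K (2 + Real.sqrt 2) g b mu → Bud mu → False)
    (w : Fin 5 → Fin 3 → ℝ) (b : Fin 5 → ℝ)
    (hb : Bornology.IsBounded {x : Fin 3 → ℝ | ∀ i, ∑ j, w i j * x j ≤ b i})
    (hi : (interior {x : Fin 3 → ℝ | ∀ i, ∑ j, w i j * x j ≤ b i}).Nonempty)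
    (hz : ∀ z : Fin 3 → ℤ, (fun j => (z j : ℝ)) ∉ interior {x : Fin 3 → ℝ | ∀ i, ∑ j, w i j * x j ≤ b i}) :
    ∃ y : Fin 3 → ℤ, y ≠ 0 ∧ ∀ x ∈ {x : Fin 3 → ℝ | ∀ i, ∑ j, w i j * x j ≤ b i},
      ∀ x' ∈ {x : Fin 3 → ℝ | ∀ i, ∑ j, w i j * x j ≤ b i},
        ∑ i, (x i - x' i) * (y i : ℝ) ≤ 2 + Real.sqrt 2 := by
  have hE : {x : Fin 3 → ℝ | ∀ i, ∑ j, w i j * x j ≤ b i} = Half w b := rfl
  rw [hE] at hb hi hz ⊢
  have hcl : IsClosed (Half w b) := by
    have h1 : Half w b = ⋂ i, {x : Fin 3 → ℝ | w i ⬝ᵥ x ≤ b i} := by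
      ext x
      simp [Half]
    rw [h1]
    refine isClosed_iInter fun i => isClosed_le ?_ continuous_const
    unfold dotProduct
    fun_prop
  have hcomp : IsCompact (Half w b) := Metric.isCompact_of_isClosed_isBounded hcl hb
  by_contra hcon
  obtain ⟨g, b', mu, hT⟩ := exists_exact w b hcomp hi hz (2 + Real.sqrt 2) (by positivity) hcon
  obtain ⟨g', b'', mu', hT', hB⟩ := exists_bud
    (fun K f P g hK hch hspan =>
      Pool.Agent.Helper38.TET.flatA_of Pool.Agent.Helper44.ThA.core hK hch hspan) hT (asym hT)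
  exact H _ g' b'' mu' hT' hB

/-- **Polytopes with at most five facets**, from the certificate of the wall states with the budget -/
theorem five_bcert {κ : ℝ} (h0 : 0 ≤ κ) (h1 : κ ≤ 1)
    (cert : ∀ K n nC nD b bC bD ρ lab f x t mu, ¬ BState κ K (2 + Real.sqrt 2) n nC nD b bC bD ρ lab f x t mu)
    (w : Fin 5 → Fin 3 → ℝ) (b : Fin 5 → ℝ)
    (hb : Bornology.IsBounded {x : Fin 3 → ℝ | ∀ i, ∑ j, w i j * x j ≤ b i})
    (hi : (interior {x : Fin 3 → ℝ | ∀ i, ∑ j, w i j * x j ≤ b i}).Nonempty)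
    (hz : ∀ z : Fin 3 → ℤ, (fun j => (z j : ℝ)) ∉ interior {x : Fin 3 → ℝ | ∀ i, ∑ j, w i j * x j ≤ b i}) :
    ∃ y : Fin 3 → ℤ, y ≠ 0 ∧ ∀ x ∈ {x : Fin 3 → ℝ | ∀ i, ∑ j, w i j * x j ≤ b i},
      ∀ x' ∈ {x : Fin 3 → ℝ | ∀ i, ∑ j, w i j * x j ≤ b i},
        ∑ i, (x i - x' i) * (y i : ℝ) ≤ 2 + Real.sqrt 2 := by
  refine five_bof (fun K g b mu h hB => ?_) w b hb hi hz
  obtain ⟨n, nC, nD, b', bC, bD', ρ, lab, f, x, t, hS⟩ := exists_bstate
    (fun K f P g hK hch hspan =>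
      Pool.Agent.Helper38.TET.flatA_of Pool.Agent.Helper44.ThA.core hK hch hspan) h0 h1 h hB
  exact cert _ _ _ _ _ _ _ _ _ _ _ _ _ hS

end Pool.Agent.Helper24.FIVE
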