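import Pool.Agent.Helper24.FIVE.Main3
import Pool.Agent.Helper20.PS.KState

/-!
# The theorem on polytopes with at most five facets, from the thirteen classes of wall states of the certificate
-/

set_option autoImplicit false

namespace Pool.Agent.Helper24.FIVE

open Matrix
open Pool.Agent.Helper20.FIVE (Half)
open Pool.Agent.Helper20.PS (Two HasK KF exists_hasK)
open Pool.Agent.Helper1.FIVE (classesB)

/-- **Polytopes with at most five facets**, from the certificate of the thirteen classes of states with the two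
circuits -/
theorem five_cert_k
    (cert : ∀ (K : Set (Fin 3 → ℝ)) (l : Fin 6 → Fin 5), l ∈ classesB → ¬ HasK K (2 + Real.sqrt 2) l)
    (w : Fin 5 → Fin 3 → ℝ) (b : Fin 5 → ℝ)
    (hb : Bornology.IsBounded {x : Fin 3 → ℝ | ∀ i, ∑ j, w i j * x j ≤ b i})
    (hi : (interior {x : Fin 3 → ℝ | ∀ i, ∑ j, w i j * x j ≤ b i}).Nonempty)
    (hz : ∀ z : Fin 3 → ℤ, (fun j => (z j : ℝ)) ∉ interior {x : Fin 3 → ℝ | ∀ i, ∑ j, w i j * x j ≤ b i}) :
    ∃ y : Fin 3 → ℤ, y ≠ 0 ∧ ∀ x ∈ {x : Fin 3 → ℝ | ∀ i, ∑ j, w i j * x j ≤ b i},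
      ∀ x' ∈ {x : Fin 3 → ℝ | ∀ i, ∑ j, w i j * x j ≤ b i},
        ∑ i, (x i - x' i) * (y i : ℝ) ≤ 2 + Real.sqrt 2 := by
  have hE : {x : Fin 3 → ℝ | ∀ i, ∑ j, w i j * x j ≤ b i} = Half w b := rfl
  rw [hE] at hb hi hz ⊢
  have hcl : IsClosed (Half w b) := by
    have h1 : Half w b = ⋂ i, {x : Fin 3 → ℝ | w i ⬝ᵥ x ≤ b i} := by
      ext x
      simp [Half]
    rw [h1]
    refine isClosed_iInter fun i => isClosed_le ?_ continuous_const
    unfold dotProduct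
    fun_prop
  have hcomp : IsCompact (Half w b) := Metric.isCompact_of_isClosed_isBounded hcl hb
  by_contra hcon
  obtain ⟨g, b', mu, hT⟩ := exists_exact w b hcomp hi hz (2 + Real.sqrt 2) (by positivity) hcon
  obtain ⟨l, hl, hH⟩ := exists_hasK
    (fun K f P g hK hch hspan =>
      Pool.Agent.Helper38.TET.flatA_of Pool.Agent.Helper44.ThA.core hK hch hspan) hT (asym hT)
  exact cert _ l hl hH

/-- **Polytopes with at most five facets**, from the certificate of the states `KF` of the thirteen classes -/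
theorem five_kf
    (cert : ∀ l : Fin 6 → Fin 5, l ∈ classesB →
      ¬ ∃ F Z S p cls d c s h L, KF (2 + Real.sqrt 2) l F Z S p cls d c s h L)
    (w : Fin 5 → Fin 3 → ℝ) (b : Fin 5 → ℝ)
    (hb : Bornology.IsBounded {x : Fin 3 → ℝ | ∀ i, ∑ j, w i j * x j ≤ b i})
    (hi : (interior {x : Fin 3 → ℝ | ∀ i, ∑ j, w i j * x j ≤ b i}).Nonempty)
    (hz : ∀ z : Fin 3 → ℤ, (fun j => (z j : ℝ)) ∉ interior {x : Fin 3 → ℝ | ∀ i, ∑ j, w i j * x j ≤ b i}) :
    ∃ y : Fin 3 → ℤ, y ≠ 0 ∧ ∀ x ∈ {x : Fin 3 → ℝ | ∀ i, ∑ j, w i j * x j ≤ b i},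
      ∀ x' ∈ {x : Fin 3 → ℝ | ∀ i, ∑ j, w i j * x j ≤ b i},
        ∑ i, (x i - x' i) * (y i : ℝ) ≤ 2 + Real.sqrt 2 :=
  five_cert_k (fun _ l hl hH => cert l hl hH.kf) w b hb hi hz

end Pool.Agent.Helper24.FIVE
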