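import Pool.Agent.Helper24.FV.Input

/-!
# The theorem on polytopes with at most five facets, from the exclusion of the two circuits
-/

set_option autoImplicit false

namespace Pool.Agent.Helper24.FIVE

open Matrix
open Pool.Agent.Helper20.FIVE (Half)
open Pool.Agent.Helper20.PS (Two)

/-- **Polytopes with at most five facets**, from `H` -/
theorem five_of
    (H : ∀ (K : Set (Fin 3 → ℝ)) (g : Fin 4 → Fin 3 → ℝ) (b : Fin 4 → ℝ) (mu : Fin 3 → ℝ),
      ¬ Two K (2 + Real.sqrt 2) g b mu)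
    (w : Fin 5 → Fin 3 → ℝ) (b : Fin 5 → ℝ)
    (hb : Bornology.IsBounded {x : Fin 3 → ℝ | ∀ i, ∑ j, w i j * x j ≤ b i})
    (hi : (interior {x : Fin 3 → ℝ | ∀ i, ∑ j, w i j * x j ≤ b i}).Nonempty)
    (hz : ∀ z : Fin 3 → ℤ, (fun j => (z j : ℝ)) ∉ interior {x : Fin 3 → ℝ | ∀ i, ∑ j, w i j * x j ≤ b i}) :
    ∃ y : Fin 3 → ℤ, y ≠ 0 ∧ ∀ x ∈ {x : Fin 3 → ℝ | ∀ i, ∑ j, w i j * x j ≤ b i},
      ∀ x' ∈ {x : Fin 3 → ℝ | ∀ i, ∑ j, w i j * x j ≤ b i},
        ∑ i, (x i - x' i) * (y i : ℝ) ≤ 2 + Real.sqrt 2 := by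
  have hE : {x : Fin 3 → ℝ | ∀ i, ∑ j, w i j * x j ≤ b i} = Half w b := rfl
  rw [hE] at hb hi hz ⊢
  have hcl : IsClosed (Half w b) := by
    have h1 : Half w b = ⋂ i, {x : Fin 3 → ℝ | w i ⬝ᵥ x ≤ b i} := by
      ext x
      simp [Half]
    rw [h1]
    refine isClosed_iInter fun i => isClosed_le ?_ continuous_const
    unfold dotProduct
    fun_prop
  have hcomp : IsCompact (Half w b) := Metric.isCompact_of_isClosed_isBounded hcl hb
  by_contra hcon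
  obtain ⟨K, g, b', mu, hT⟩ := Pool.Agent.Helper24.FV.exists_input w b hcomp hi hz (2 + Real.sqrt 2)
    (by positivity) hcon
  exact H K g b' mu hT

end Pool.Agent.Helper24.FIVE
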